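import Pool.Agent.W838.DC.Stm3
import Pool.Agent.W838.DC.Basic

/-!
# DC-MAIN: assembly of the abstract theorem
-/

set_option autoImplicit false

namespace Pool.Agent.W577.DC

open Pool.Agent.W838.DC Pool.Agent.W838.DC.Sys

variable {V X : Type*} [AddCommGroup V] {σ : Sys V X}

/-- a summand of a decomposable root of the region is in the region -/
theorem psi_summand {x : X} {b c : V} (hb : σ.R x b) (hc : σ.R x c) (h : σ.Psi x (b + c)) :
    σ.Psi x b := by
  have hbc : σ.ip b c = -1 := by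
    have h1 := σ.ip_self _ h.1.1
    rw [σ.ip_add, σ.ip_add_right, σ.ip_add_right, σ.ip_self b hb.1, σ.ip_self c hc.1,
      σ.ip_symm c b] at h1
    omega
  have hcb : σ.ip c b = -1 := by rw [σ.ip_symm]; exact hbc
  refine ⟨hb, ?_⟩
  -- the top of the plane
  have htop : σ.r b (σ.r c (σ.r b x)) = σ.r (b + c) x := by
    rw [σ.r_conj_neg hb.1 hc.1 hbc, σ.r_r hb.1]
  have h2 : σ.P (σ.r c (σ.r b x)) := by
    apply σ.P_of_R (a := b)
    · refine ⟨hb.1, hb.2.1, ?_⟩
      rw [σ.lab_r_neg hc.1 (σ.r b x) hcb, σ.lab_r_neg hb.1 x hbc, σ.lab_r_self hb.1]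
      have : σ.lab x b + σ.lab x c + -σ.lab x b = σ.lab x c := by abel
      rw [this]
      exact hc.2.2
    · rw [htop]
      exact h.2
  apply σ.P_of_R (a := c)
  · refine ⟨hc.1, hc.2.1, ?_⟩
    rw [σ.lab_r_neg hb.1 x hbc, map_add]
    have h3 := hb.2.2
    have h4 := hc.2.2
    omega
  · exact h2

theorem exists_indec {x : X} : ∀ (n : ℕ) (a : V), σ.Psi x a → (σ.ht a).toNat ≤ n →
    ∃ z, σ.Psi x z ∧ Indec σ x z := by
  intro n
  induction n with
  | zero =>
    intro a ha hn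
    have := ha.1.2.1
    omega
  | succ n ih =>
    intro a ha hn
    by_cases h : Indec σ x a
    · exact ⟨a, ha, h⟩
    · unfold Indec at h
      push Not at h
      obtain ⟨b, c, hb, hc, rfl⟩ := h
      apply ih b (psi_summand hb hc ha)
      rw [map_add] at hn
      have h1 := hb.2.1
      have h2 := hc.2.1
      omega

open Classical in
theorem main_ (_h1 : S_CNT σ) (h2 : S_POT σ) (h3 : S_E3 σ) (_h4 : S_CLM σ) (h5 : S_G σ)
    (h6 : S_NL σ) (h7 : S_LG σ) : S_MAIN σ := by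
  obtain ⟨h, hh⟩ := h2
  intro x hreg hex hS
  obtain ⟨a, ha⟩ := hex
  obtain ⟨z0, hz0, hi0⟩ := exists_indec (σ := σ) (x := x) _ a ha le_rfl
  obtain ⟨s0, hs0, hRs0, -⟩ := h3 x z0 hz0.1 hi0
  have hne : (σ.S.filter (fun s => σ.R x s)).Nonempty := ⟨s0, Finset.mem_filter.2 ⟨hs0, hRs0⟩⟩
  obtain ⟨s, hs, hmax⟩ := Finset.exists_max_image _ (fun s => h x s) hne
  rw [Finset.mem_filter] at hs
  have hPs := hS s hs.1 hs.2
  have hle : ∀ z, σ.Psi x z → Indec σ x z → h x z ≤ h x s := by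
    intro z hz hi
    obtain ⟨s', hs', hR', hcl⟩ := h3 x z hz.1 hi
    have h8 := h5 h hh x hreg s' z (hS s' hs' hR') hz hcl
    have h9 := hmax s' (Finset.mem_filter.2 ⟨hs', hR'⟩)
    exact h8.trans h9
  refine ⟨s, hs.1, hs.2, ?_⟩
  apply h7 x hreg s hs.1 hPs
  intro z hz
  obtain ⟨z', hz', hi', hlt⟩ := h6 h hh x hreg z s hz
  have := hle z' hz' hi'
  omega

theorem g_of (hO : S_GO σ) (hD : S_GD σ) : S_G σ := by
  intro h hh x hreg y z hy hz hcl
  obtain ⟨l, hl, rfl⟩ := hD x y z hy hz hcl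
  exact hO h hh x hreg y l hy hl hz

end Pool.Agent.W577.DC
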